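import Pool.Agent.Helper70.BI.T.StT

/-!
# Project BI, stage 6, module PP: coordinates on the unit sphere
-/

set_option autoImplicit false

open scoped Topology unitInterval Manifold ContDiff ComplexConjugate
open Set Pool.Agent.Helper65.Barb Pool.Agent.Helper18.BI
open Pool.Agent.Helper18.BI.R (S2)

namespace Pool.Agent.Helper70.T

private theorem nsq_PP (c s : ℝ) (ρ : ℝ) (h : c ^ 2 + s ^ 2 = 1) :
    nsq (c, (s : ℂ) * Complex.exp (ρ * Complex.I)) = 1 := by
  have h1 : ((s : ℂ) * Complex.exp (ρ * Complex.I)).re = s * Real.cos ρ := by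
    rw [Complex.re_ofReal_mul, Complex.exp_ofReal_mul_I_re]
  have h2 : ((s : ℂ) * Complex.exp (ρ * Complex.I)).im = s * Real.sin ρ := by
    rw [Complex.im_ofReal_mul, Complex.exp_ofReal_mul_I_im]
  rw [nsq]
  simp only
  rw [h1, h2]
  have h3 := Real.sin_sq_add_cos_sq ρ
  calc c ^ 2 + (s * Real.cos ρ) ^ 2 + (s * Real.sin ρ) ^ 2
      = c ^ 2 + s ^ 2 * (Real.sin ρ ^ 2 + Real.cos ρ ^ 2) := by ring
    _ = 1 := by rw [h3, mul_one, h]

private theorem mem_PP (ρ v : ℝ) : PP ρ v ∈ S2 := by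
  refine nsq_PP _ _ ρ ?_
  rw [add_comm]
  exact Real.sin_sq_add_cos_sq _

private theorem lat_PP {ρ v : ℝ} (hv : v ∈ Icc (0 : ℝ) 1) : lat (PP ρ v) = v := by
  have hpi := Real.pi_pos
  change Real.arccos (Real.cos (Real.pi * v)) / Real.pi = v
  rw [Real.arccos_cos (mul_nonneg hpi.le hv.1) (by nlinarith [hv.2])]
  field_simp

private theorem arg_PP {r θ : ℝ} (hr : 0 < r) (hθ : θ ∈ Ioc (-Real.pi) Real.pi) :
    Complex.arg ((r : ℂ) * Complex.exp (θ * Complex.I)) = θ := by
  rw [Complex.exp_mul_I]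
  exact Complex.arg_mul_cos_add_sin_mul_I hr hθ

private theorem lon_PP {ρ v : ℝ} (hρ : ρ ∈ Ico (0 : ℝ) (2 * Real.pi)) (hv : v ∈ Ioo (0 : ℝ) 1) :
    lon (PP ρ v) = ρ := by
  have hpi := Real.pi_pos
  have hs : 0 < Real.sin (Real.pi * v) :=
    Real.sin_pos_of_pos_of_lt_pi (mul_pos hpi hv.1) (by nlinarith [hv.2])
  change (if 0 ≤ Complex.arg ((Real.sin (Real.pi * v) : ℂ) * Complex.exp (ρ * Complex.I)) then
    Complex.arg ((Real.sin (Real.pi * v) : ℂ) * Complex.exp (ρ * Complex.I)) else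
    Complex.arg ((Real.sin (Real.pi * v) : ℂ) * Complex.exp (ρ * Complex.I)) + 2 * Real.pi) = ρ
  rcases le_or_gt ρ Real.pi with h | h
  · have h1 := arg_PP hs (θ := ρ) ⟨by linarith [hρ.1], h⟩
    rw [h1, if_pos hρ.1]
  · have h1 := arg_PP hs (θ := ρ - 2 * Real.pi) ⟨by linarith, by linarith [hρ.2]⟩
    have h2 : Complex.exp (((ρ - 2 * Real.pi : ℝ) : ℂ) * Complex.I) =
        Complex.exp (ρ * Complex.I) := by
      push_cast
      rw [sub_mul, Complex.exp_sub, Complex.exp_two_pi_mul_I, div_one]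
    rw [h2] at h1
    rw [h1, if_neg (by linarith [hρ.2])]
    ring

private theorem sph_PP {X : Type} [TopologicalSpace X] (A : Act X) (γ : ℝ → X)
    (h0 : γ 0 ∈ A.Fix) (h1 : γ 1 ∈ A.Fix) (ρ : ℝ) (hρ : ρ ∈ Icc (0 : ℝ) (2 * Real.pi))
    (v : ℝ) (hv : v ∈ Icc (0 : ℝ) 1) : A.sph γ (PP ρ v) = A.R ρ (γ v) := by
  rw [Act.sph, lat_PP hv]
  rcases eq_or_lt_of_le hv.1 with h | h
  · rw [← h, h0, h0]
  rcases eq_or_lt_of_le hv.2 with h' | h'
  · rw [h', h1, h1]
  rcases eq_or_lt_of_le hρ.2 with h2 | h2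
  · have hpi := Real.pi_pos
    have hs : 0 < Real.sin (Real.pi * v) :=
      Real.sin_pos_of_pos_of_lt_pi (mul_pos hpi h) (by nlinarith)
    have h3 : Complex.exp (ρ * Complex.I) = Complex.exp (((0 : ℝ) : ℂ) * Complex.I) := by
      rw [h2]
      push_cast
      rw [Complex.exp_two_pi_mul_I]
      simp
    have h4 : PP ρ v = PP 0 v := by
      rw [PP, PP, h3]
    rw [h4, lon_PP ⟨le_rfl, by positivity⟩ ⟨h, h'⟩, h2, A.zero, A.per]
  · rw [lon_PP ⟨hρ.1, h2⟩ ⟨h, h'⟩]

private theorem inv_PP {m : R3} (hm : m ∈ S2) : PP (lon m) (lat m) = m ∧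
    lon m ∈ Icc (0 : ℝ) (2 * Real.pi) ∧ lat m ∈ Icc (0 : ℝ) 1 := by
  have hpi := Real.pi_pos
  have hm' : m.1 ^ 2 + m.2.re ^ 2 + m.2.im ^ 2 = 1 := hm
  have hlat : Real.pi * lat m = Real.arccos m.1 := by
    rw [lat]
    field_simp
  have hle : m.1 ^ 2 ≤ 1 := by nlinarith [sq_nonneg m.2.re, sq_nonneg m.2.im]
  have hab := abs_le.1 (abs_le_one_iff_mul_self_le_one.2 (by nlinarith : m.1 * m.1 ≤ 1))
  have hnorm : Real.sqrt (1 - m.1 ^ 2) = ‖m.2‖ := by
    rw [Complex.norm_def, Complex.normSq_apply]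
    congr 1
    nlinarith [hm']
  have hexp : (‖m.2‖ : ℂ) * Complex.exp (lon m * Complex.I) = m.2 := by
    have h1 : Complex.exp (lon m * Complex.I) = Complex.exp (m.2.arg * Complex.I) := by
      rw [lon]
      split_ifs
      · rfl
      · push_cast
        rw [add_mul, Complex.exp_add, Complex.exp_two_pi_mul_I, mul_one]
    rw [h1]
    exact Complex.norm_mul_exp_arg_mul_I m.2
  refine ⟨?_, ?_, ?_⟩
  · rw [PP, hlat, Real.cos_arccos hab.1 hab.2, Real.sin_arccos, hnorm, hexp]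
  · rw [lon]
    have h1 := Complex.neg_pi_lt_arg m.2
    have h2 := Complex.arg_le_pi m.2
    split_ifs with h
    · exact ⟨h, by linarith⟩
    · exact ⟨by linarith, by linarith⟩
  · constructor
    · exact div_nonneg (Real.arccos_nonneg _) hpi.le
    · rw [lat, div_le_one hpi]
      exact Real.arccos_le_pi _

private theorem cont_PP : Continuous fun z : ℝ × ℝ => PP z.1 z.2 := by
  unfold PP
  refine Continuous.prodMk ?_ ?_
  · exact Real.continuous_cos.comp (continuous_const.mul continuous_snd)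
  · refine Continuous.mul ?_ ?_
    · exact Complex.continuous_ofReal.comp
        (Real.continuous_sin.comp (continuous_const.mul continuous_snd))
    · exact Complex.continuous_exp.comp
        ((Complex.continuous_ofReal.comp continuous_fst).mul continuous_const)

theorem m_PP : StPP := by
  refine ⟨mem_PP, fun X _ A γ h0 h1 ρ hρ v hv => sph_PP A γ h0 h1 ρ hρ v hv,
    fun m hm => inv_PP hm, ?_⟩
  intro X Z _ _ A Γ hΓ h0 h1
  -- the quotient map
  let K : Type := ↥(Icc (0 : ℝ) (2 * Real.pi)) × ↥(Icc (0 : ℝ) 1)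
  let P : K → ↥S2 := fun k => ⟨PP k.1 k.2, mem_PP _ _⟩
  have hPc : Continuous P := by
    refine Continuous.subtype_mk ?_ _
    exact cont_PP.comp ((continuous_subtype_val.comp continuous_fst).prodMk
      (continuous_subtype_val.comp continuous_snd))
  have hPp : IsProperMap P := Continuous.isProperMap hPc
  have hqp : IsProperMap (Prod.map (id : Z → Z) P) := isProperMap_id.prodMap hPp
  have hPs : Function.Surjective P := by
    rintro ⟨m, hm⟩
    obtain ⟨e, hl, hv⟩ := inv_PP hm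
    exact ⟨(⟨lon m, hl⟩, ⟨lat m, hv⟩), Subtype.ext e⟩
  have hq : Topology.IsQuotientMap (Prod.map (id : Z → Z) P) :=
    hqp.isClosedMap.isQuotientMap hqp.continuous (Function.surjective_id.prodMap hPs)
  -- the map on `Z × S2`
  have hf : Continuous fun p : Z × ↥S2 => A.sph (fun v => Γ (p.1, v)) p.2 := by
    rw [hq.continuous_iff]
    have e : (fun p : Z × ↥S2 => A.sph (fun v => Γ (p.1, v)) p.2) ∘ (Prod.map (id : Z → Z) P) =
        fun p : Z × K => A.R p.2.1 (Γ (p.1, p.2.2)) := by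
      funext p
      exact sph_PP A (fun v => Γ (p.1, v)) (h0 p.1) (h1 p.1) p.2.1 p.2.1.2 p.2.2 p.2.2.2
    rw [e]
    have h2 : Continuous fun p : Z × K => Γ (p.1, (p.2.2 : ℝ)) := by
      refine hΓ.comp_continuous ?_ ?_
      · exact continuous_fst.prodMk (continuous_subtype_val.comp
          (continuous_snd.comp continuous_snd))
      · intro p
        exact ⟨mem_univ _, p.2.2.2⟩
    exact A.cont.comp ((continuous_subtype_val.comp (continuous_fst.comp continuous_snd)).prodMk h2)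
  rw [continuousOn_iff_continuous_domRestrict]
  have hg : Continuous fun p : ↥((univ : Set Z) ×ˢ S2) => ((p.1.1, ⟨p.1.2, p.2.2⟩) : Z × ↥S2) := by
    refine Continuous.prodMk (continuous_fst.comp continuous_subtype_val) ?_
    exact Continuous.subtype_mk (continuous_snd.comp continuous_subtype_val) _
  exact hf.comp hg

end Pool.Agent.Helper70.T

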